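import Pool.Agent.Zk1.FH.Inp
import Pool.Agent.Zk6.G.Fin

set_option autoImplicit false

/-!
# The data `Ctl` for the completed L-functions
-/

open Complex Filter Topology Set Polynomial
open scoped ComplexConjugate

namespace Pool.Agent.Zk1.FH

open Pool.Agent.TH839.UH Pool.Agent.W169.HF Pool.Agent.W355.UN Pool.Agent.Zk4.G Pool.Agent.Zk6.G

variable {m : ℕ} {B : ℝ → ℝ} {N θ : ℝ} {μ : Fin m → ℂ} {X L : ℂ → ℂ}

/-- the logarithmic analytic conductor at the height `3 y` -/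
noncomputable def cc {m : ℕ} (N : ℝ) (μ : Fin m → ℂ) (y : ℝ) : ℝ :=
  2 * m + Real.log (W355.UN.cond N μ (3 * y))

lemma nrm_sq {w : ℂ} (hw : w.im = 0) (y : ℝ) : ‖(y : ℂ) * I - w‖ ^ 2 = y ^ 2 + w.re ^ 2 := by
  rw [Complex.sq_norm, Complex.normSq_apply]
  simp [hw]
  ring

lemma nrm_mono {w : ℂ} (hw : w.im = 0) {x y : ℝ} (h : |x| ≤ |y|) :
    ‖(x : ℂ) * I - w‖ ≤ ‖(y : ℂ) * I - w‖ := by
  refine le_of_sq_le_sq ?_ (norm_nonneg _)
  rw [nrm_sq hw, nrm_sq hw]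
  have := sq_le_sq.2 h
  linarith

lemma log_cond (hN : 1 ≤ N) (μ : Fin m → ℂ) (y : ℝ) : Real.log (W355.UN.cond N μ y) =
    Real.log N + ∑ j, Real.log (1 + ‖(y : ℂ) * I - μ j‖) := by
  have hN0 : 0 < N := by linarith
  have hp : ∀ j, 0 < 1 + ‖(y : ℂ) * I - μ j‖ := fun j => by positivity
  have hpp : 0 < ∏ j, (1 + ‖(y : ℂ) * I - μ j‖) := Finset.prod_pos fun j _ => hp j
  unfold W355.UN.cond
  rw [Real.log_mul hN0.ne' hpp.ne', Real.log_prod (fun j _ => (hp j).ne')]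

lemma cond_mono (hN : 1 ≤ N) (hμ : ∀ j, (μ j).im = 0) {x y : ℝ} (h : |x| ≤ |y|) :
    W355.UN.cond N μ x ≤ W355.UN.cond N μ y := by
  unfold W355.UN.cond
  refine mul_le_mul_of_nonneg_left ?_ (by linarith)
  refine Finset.prod_le_prod (fun j _ => by positivity) fun j _ => ?_
  have := nrm_mono (hμ j) h
  linarith

lemma cond_even (hN : 1 ≤ N) (hμ : ∀ j, (μ j).im = 0) (y : ℝ) :
    W355.UN.cond N μ (-y) = W355.UN.cond N μ y :=
  le_antisymm (cond_mono hN hμ (by rw [abs_neg])) (cond_mono hN hμ (by rw [abs_neg]))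

lemma cc_nonneg (hN : 1 ≤ N) (y : ℝ) : 2 * (m : ℝ) ≤ cc N μ y := by
  unfold cc
  have := Real.log_nonneg (one_le_cond hN μ (3 * y))
  linarith

lemma cc_dbl (hN : 1 ≤ N) (μ : Fin m → ℂ) (y : ℝ) : cc N μ (y + 1) ≤ 2 * cc N μ y := by
  have h0 := cc_nonneg (μ := μ) hN y
  unfold cc at h0 ⊢
  rw [log_cond hN] at h0 ⊢
  rw [log_cond hN]
  have h8 : Real.log 4 ≤ 2 := by
    have e : Real.log 4 = 2 * Real.log 2 := by
      rw [show (4 : ℝ) = 2 ^ 2 by norm_num, Real.log_pow]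
      norm_num
    have := Real.log_two_lt_d9
    linarith
  have : ∀ j ∈ (Finset.univ : Finset (Fin m)), Real.log (1 + ‖((3 * (y + 1) : ℝ) : ℂ) * I - μ j‖) ≤
      Real.log (1 + ‖((3 * y : ℝ) : ℂ) * I - μ j‖) + 2 := fun j _ => by
    have h1 : 1 + ‖((3 * (y + 1) : ℝ) : ℂ) * I - μ j‖ ≤ 4 * (1 + ‖((3 * y : ℝ) : ℂ) * I - μ j‖) := by
      have e : ((3 * (y + 1) : ℝ) : ℂ) * I - μ j = (((3 * y : ℝ) : ℂ) * I - μ j) + 3 * I := by
        push_cast; ring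
      rw [e]
      have h2 := norm_add_le (((3 * y : ℝ) : ℂ) * I - μ j) (3 * I)
      rw [norm_mul, Complex.norm_I, Complex.norm_ofNat] at h2
      have := norm_nonneg (((3 * y : ℝ) : ℂ) * I - μ j)
      linarith
    have h2 := Real.log_le_log (by positivity) h1
    rw [Real.log_mul (by norm_num) (by positivity)] at h2
    linarith
  have h1 := Finset.sum_le_sum this
  rw [Finset.sum_add_distrib, Finset.sum_const, Finset.card_univ, Fintype.card_fin,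
    nsmul_eq_mul] at h1
  have h2 := Real.log_nonneg hN
  have h3 : 0 ≤ ∑ j, Real.log (1 + ‖((3 * y : ℝ) : ℂ) * I - μ j‖) :=
    Finset.sum_nonneg fun j _ => Real.log_nonneg (by
      linarith [norm_nonneg (((3 * y : ℝ) : ℂ) * I - μ j)])
  linarith

lemma cc_log (hN : 1 ≤ N) (μ : Fin m → ℂ) : ∃ A : ℝ, ∀ y : ℝ, 1 ≤ y →
    cc N μ y ≤ A * (1 + Real.log y) := by
  refine ⟨4 * m + Real.log N + ∑ j, Real.log (1 + ‖μ j‖), fun y hy => ?_⟩
  have hl := Real.log_nonneg hy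
  unfold cc
  rw [log_cond hN]
  have h8 : Real.log 4 ≤ 2 := by
    have e : Real.log 4 = 2 * Real.log 2 := by
      rw [show (4 : ℝ) = 2 ^ 2 by norm_num, Real.log_pow]
      norm_num
    have := Real.log_two_lt_d9
    linarith
  have : ∀ j ∈ (Finset.univ : Finset (Fin m)), Real.log (1 + ‖((3 * y : ℝ) : ℂ) * I - μ j‖) ≤
      (2 + Real.log y) + Real.log (1 + ‖μ j‖) := fun j _ => by
    have h1 : 1 + ‖((3 * y : ℝ) : ℂ) * I - μ j‖ ≤ (4 * y) * (1 + ‖μ j‖) := by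
      have h2 := norm_sub_le (((3 * y : ℝ) : ℂ) * I) (μ j)
      rw [norm_mul, Complex.norm_I, mul_one, Complex.norm_real, Real.norm_eq_abs,
        abs_of_nonneg (by linarith)] at h2
      have := norm_nonneg (μ j)
      nlinarith
    have h2 := Real.log_le_log (by positivity) h1
    rw [Real.log_mul (by linarith) (by positivity), Real.log_mul (by norm_num) (by linarith)] at h2
    linarith
  have h1 := Finset.sum_le_sum this
  rw [Finset.sum_add_distrib, Finset.sum_const, Finset.card_univ, Fintype.card_fin,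
    nsmul_eq_mul] at h1
  have h2 := Real.log_nonneg hN
  have h3 : 0 ≤ ∑ j, Real.log (1 + ‖μ j‖) :=
    Finset.sum_nonneg fun j _ => Real.log_nonneg (by linarith [norm_nonneg (μ j)])
  have hm0 : (0 : ℝ) ≤ m := Nat.cast_nonneg m
  nlinarith [mul_nonneg h2 hl, mul_nonneg h3 hl, mul_nonneg hm0 hl]

/-- generic form -/
theorem ctl_of (h : UL m B N θ μ X L) (hθ : θ ≤ 1)
    (he : ∀ y, W355.UN.cond N μ (-y) = W355.UN.cond N μ y)
    (hmo : ∀ x y, 0 ≤ x → x ≤ y → W355.UN.cond N μ x ≤ W355.UN.cond N μ y) {ε : ℂ}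
    (hfe : ∀ s : ℂ, X s = ε * conj (X (1 - conj s))) (hr : ∀ s : ℂ, conj (X (conj s)) = X s)
    {C K : ℝ} (hC : 0 < C) (hK : C + 3 * (B 1 + 12) ≤ K)
    (hres : ResD C m N (fun y => W355.UN.cond N μ y) X) {v : ℂ} (hv0 : v ≠ 0)
    (hv : v * ε = conj v) : Ctl K (FF v X) (cc N μ) := by
  have hm : (1 : ℝ) ≤ m := by exact_mod_cast h.hm
  have hB := h.hB 1
  refine ⟨FF_FE h hθ hfe hr hres hv0 hv, fun y => ?_, fun y => ?_, fun x y hx hxy => ?_,
    fun y _ => cc_dbl h.hN μ y, fun y => ?_, fun n s hn h0 => ?_⟩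
  · have := cc_nonneg (μ := μ) h.hN y
    linarith
  · unfold cc
    rw [mul_neg, he]
  · unfold cc
    have h1 := Real.log_le_log (lt_of_lt_of_le one_pos (one_le_cond h.hN μ (3 * x)))
      (hmo (3 * x) (3 * y) (by linarith) (by linarith))
    linarith
  · have h1 := FF_qq h hθ hv0 y
    have h2 : (m : ℝ) + Real.log (W355.UN.cond N μ (3 * y)) ≤ cc N μ y := by
      unfold cc
      linarith
    have h3 : 0 ≤ (m : ℝ) + Real.log (W355.UN.cond N μ (3 * y)) := by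
      have := Real.log_nonneg (one_le_cond h.hN μ (3 * y))
      linarith
    have h4 := cc_nonneg (μ := μ) h.hN y
    calc _ ≤ _ := h1
      _ ≤ 3 * ((B 1 + 12) * cc N μ y) := by gcongr
      _ = (3 * (B 1 + 12)) * cc N μ y := by ring
      _ ≤ K * cc N μ y := by
        apply mul_le_mul_of_nonneg_right _ (by linarith)
        linarith
  · have e1 := iter_aff h.slow.1 v (1 / 2) n
    have f1 : iteratedDeriv n (FF v X) = fun z => v * 3 ^ n *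
      iteratedDeriv n X (1 / 2 + 3 * z) := e1
    rw [f1] at h0
    have h3 : (v * 3 ^ n : ℂ) ≠ 0 := mul_ne_zero hv0 (pow_ne_zero _ (by norm_num))
    have h4 : iteratedDeriv n X (1 / 2 + 3 * s) = 0 := (mul_eq_zero.1 h0).resolve_left h3
    have e : (1 / 2 + 3 * s) = ((1 / 2 : ℝ) : ℂ) + ((3 : ℝ) : ℂ) * s := by push_cast; ring
    have him : (1 / 2 + 3 * s).im = 3 * s.im := by
      rw [e, add_im, ofReal_im, im_ofReal_mul, zero_add]
    have hre : (1 / 2 + 3 * s).re = 1 / 2 + 3 * s.re := by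
      rw [e, add_re, ofReal_re, re_ofReal_mul]
    have h6 : C * (m + Real.log (W355.UN.cond N μ (3 * s.im))) ≤ K * cc N μ s.im := by
      have h2 : (m : ℝ) + Real.log (W355.UN.cond N μ (3 * s.im)) ≤ cc N μ s.im := by
        unfold cc
        linarith
      have h4 := cc_nonneg (μ := μ) h.hN s.im
      calc _ ≤ C * cc N μ s.im := by gcongr
        _ ≤ K * cc N μ s.im := by
          apply mul_le_mul_of_nonneg_right _ (by linarith)
          linarith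
    have h5 := (hres.loc n 0 (1 / 2 + 3 * s) le_rfl (by
      rw [zero_mul, add_zero, him]
      exact h6.trans hn) (by rw [heat_zero_time X h.slow]; exact h4)).1
    rw [hre] at h5
    linarith

/-- **The input**: one constant for all Hasse-Weil L-functions -/
theorem coh_ctl : ∃ K : ℝ, 0 < K ∧ ∀ {i : ℕ} {h : ℕ → ℕ} {a b : ℕ} {P : ℕ → ℤ[X]}
    (_ : 1 ≤ 2 * ∑ p ∈ Finset.range ((i + 1) / 2), h p + (if Even i then a + b else 0))
    (_ : ∀ p, p.Prime → (P p).coeff 0 = 1)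
    (_ : ∀ p, p.Prime → (P p).natDegree ≤
      2 * ∑ p ∈ Finset.range ((i + 1) / 2), h p + (if Even i then a + b else 0))
    (_ : ∀ p : ℕ, p.Prime → ∀ z : ℂ, aeval z (P p) = 0 → (p : ℝ) ^ (-(((i : ℝ) + 1) / 2)) ≤ ‖z‖)
    {A : ℝ} {r : ℕ} {Λ : ℂ → ℂ} (_ : 1 ≤ A)
    (_ : r ≤ 2 * ∑ p ∈ Finset.range ((i + 1) / 2), h p + (if Even i then a + b else 0))
    (_ : Differentiable ℂ Λ)
    (_ : ∃ A ρ : ℝ, ∀ s : ℂ, ‖Λ s‖ ≤ Real.exp (A * (1 + ‖s‖) ^ ρ))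
    (_ : ∃ ε : ℝ, (ε = 1 ∨ ε = -1) ∧ ∀ s : ℂ, Λ s = ε * Λ (i + 1 - s))
    (_ : ∃ σ : ℝ, ∀ s : ℂ, σ ≤ s.re → Λ s = ((s - (i : ℂ) / 2) * (s - (i : ℂ) / 2 - 1)) ^ r *
      ((A : ℂ) ^ (s / 2) * ((∏ p ∈ Finset.range ((i + 1) / 2), Gammaℂ (s - p) ^ h p) *
        (if Even i then Gammaℝ (s - (i : ℂ) / 2) ^ a * Gammaℝ (s - (i : ℂ) / 2 + 1) ^ b else 1)) *
        ∏' p : Nat.Primes, (aeval (((p : ℕ) : ℂ) ^ (-s)) (P p))⁻¹)),
    ∃ (u : ℂ) (c : ℝ → ℝ), u ≠ 0 ∧ Ctl K (fun z => u * Λ (((i : ℂ) + 1) / 2 + 3 * z)) c ∧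
      (∀ y : ℝ, c y =
        2 * ((2 * ∑ p ∈ Finset.range ((i + 1) / 2), h p + (if Even i then a + b else 0) : ℕ) : ℝ) +
          Real.log (A * ((∏ p ∈ Finset.range ((i + 1) / 2),
            ((1 + ‖((3 * y : ℝ) : ℂ) * I + ((i : ℂ) / 2 - p)‖) *
            (1 + ‖((3 * y : ℝ) : ℂ) * I + ((i : ℂ) / 2 - p + 1)‖)) ^ h p) *
          (if Even i then (1 + ‖((3 * y : ℝ) : ℂ) * I + 0‖) ^ a * (1 + ‖((3 * y : ℝ) : ℂ) * I + 1‖) ^ b
            else 1)))) ∧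
      (∃ D : ℝ, ∀ y : ℝ, 1 ≤ y → c y ≤ D * (1 + Real.log y)) ∧
      (∀ s : ℂ, conj (Λ (conj s)) = Λ s) ∧
      (∀ (n : ℕ) (z : ℂ), iteratedDeriv n (fun z => u * Λ (((i : ℂ) + 1) / 2 + 3 * z)) z =
        u * 3 ^ n * iteratedDeriv n Λ (((i : ℂ) + 1) / 2 + 3 * z)) := by
  obtain ⟨C0, hC0, -, H⟩ := finH
  have hB0 := Pool.Agent.TH839.UH.NF.B0_nonneg
  refine ⟨C0 + 3 * (4 * Pool.Agent.TH839.UH.NF.B0 + 2 + 12), by positivity, ?_⟩
  intro i h a b P hpos hP0 hPd hPr A r Λ hA hr hent hord hfe heq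
  obtain ⟨hreal, l, α, κ, hκ, hlen, hW, hcond, him⟩ :=
    coh_hw hpos hP0 hPd hPr hA hr hent hord hfe heq
  obtain ⟨ε, hε, hfe⟩ := hfe
  obtain ⟨u, hu0, hu⟩ : ∃ u : ℂ, u ≠ 0 ∧ u * ((ε : ℝ) : ℂ) = conj u := by
    rcases hε with rfl | rfl
    · exact ⟨1, one_ne_zero, by simp⟩
    · exact ⟨I, I_ne_zero, by simp⟩
  have hκc : (κ : ℂ) ≠ 0 := by exact_mod_cast hκ.ne'
  have hul := hW.ul
  have hXfe : ∀ s : ℂ, (κ : ℂ) * Λ (s + (((i : ℝ) / 2 : ℝ) : ℂ)) =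
      ((ε : ℝ) : ℂ) * conj ((κ : ℂ) * Λ (1 - conj s + (((i : ℝ) / 2 : ℝ) : ℂ))) := by
    intro s
    rw [map_mul, Complex.conj_ofReal]
    have e : conj (Λ (1 - conj s + (((i : ℝ) / 2 : ℝ) : ℂ))) =
        Λ (i + 1 - (s + (((i : ℝ) / 2 : ℝ) : ℂ))) := by
      rw [← hreal (i + 1 - (s + (((i : ℝ) / 2 : ℝ) : ℂ)))]
      congr 2
      simp only [map_sub, map_add, Complex.conj_natCast, Complex.conj_ofReal, map_one]
      push_cast
      ring
    rw [e, hfe (s + (((i : ℝ) / 2 : ℝ) : ℂ))]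
    ring
  have hXr : ∀ s : ℂ, conj ((κ : ℂ) * Λ (conj s + (((i : ℝ) / 2 : ℝ) : ℂ))) =
      (κ : ℂ) * Λ (s + (((i : ℝ) / 2 : ℝ) : ℂ)) := by
    intro s
    rw [map_mul, Complex.conj_ofReal, ← hreal (s + (((i : ℝ) / 2 : ℝ) : ℂ))]
    congr 3
    simp only [map_add, Complex.conj_ofReal]
  have hv0 : u / κ ≠ 0 := div_ne_zero hu0 hκc
  have hv : u / κ * ((ε : ℝ) : ℂ) = conj (u / κ) := by
    rw [map_div₀, Complex.conj_ofReal, ← hu]
    ring
  have hFF : FF (u / κ) (fun z => (κ : ℂ) * Λ (z + (((i : ℝ) / 2 : ℝ) : ℂ))) =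
      fun z => u * Λ (((i : ℂ) + 1) / 2 + 3 * z) := by
    funext z
    unfold FF
    have e : (1 / 2 + 3 * z + (((i : ℝ) / 2 : ℝ) : ℂ)) = ((i : ℂ) + 1) / 2 + 3 * z := by
      push_cast
      ring
    show u / κ * ((κ : ℂ) * Λ (1 / 2 + 3 * z + (((i : ℝ) / 2 : ℝ) : ℂ))) = _
    rw [e]
    field_simp
  refine ⟨u, cc A (fun j => -l.get j), hu0, ?_, fun y => ?_, cc_log hA _, hreal, fun n z => ?_⟩
  · rw [← hFF]
    have him' : ∀ j : Fin l.length, ((fun j => -l.get j) j).im = 0 := fun j => by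
      rw [neg_im, him, neg_zero]
    exact ctl_of hul le_rfl (cond_even hA him') (fun x y hx hxy => cond_mono hA him' (by
      rw [abs_of_nonneg hx, abs_of_nonneg (hx.trans hxy)]; exact hxy)) hXfe hXr hC0 le_rfl
      (H _ _ _ _ _ _ hW) hv0 hv
  · unfold cc
    have h3 : W355.UN.cond A (fun j => -l.get j) (3 * y) = _ := congrFun hcond (3 * y)
    rw [h3, hlen]
  · rw [iter_aff hent u (((i : ℂ) + 1) / 2) n]

end Pool.Agent.Zk1.FH
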