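import Pool.Agent.Zk6.G.Fi
import Pool.Agent.Zk4.G.Sc

set_option autoImplicit false

/-!
# From `F` to `Λ`
-/

open Complex Filter Topology Set
open scoped ComplexConjugate

namespace Pool.Agent.Zk1.FH

open Pool.Agent.Zk4.G Pool.Agent.Zk6.G Pool.Agent.Zk4.G.Sc

/-- the V side -/
structure VS (x : ℝ) (Λ F : ℂ → ℂ) : Prop where
  V : ∀ j a b, V x Λ j a b = VT F j (a / 3) (b / 3)
  w : ∀ j t, weight x Λ j t = vw F j (t / 3)
  g : ∀ (j : ℕ) (t : ℝ), iteratedDeriv j Λ (x + I * t) = 0 ↔ gn F j (t / 3) = 0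
  f : ∀ j a b, (critical x Λ j a b).Finite

variable {K : ℝ} {F Λ : ℂ → ℂ} {c ℓ : ℝ → ℝ} {x : ℝ} {u : ℂ}

/-- the constant -/
noncomputable def CC (K : ℝ) : ℝ := 2 * CF K + 4 * K + 2

theorem CC_pos (hK : 0 < K) : 0 < CC K := by
  have hCA : 0 < CA := by unfold CA; norm_num
  unfold CC CF
  positivity

theorem cv_count (hK : 0 < K) (h : Ctl K F c) (hS : Scl x Λ F u) (hV : VS x Λ F)
    (hl : ∀ y, c (y / 3) ≤ 2 * ℓ y) (hl0 : ∀ y, 0 ≤ ℓ y) (n : ℕ) (a b : ℝ) (hab : a ≤ b) :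
    |(M x Λ n a b : ℝ) - 2 * (W x Λ n a b : ℝ)| ≤ CC K * (ℓ a + ℓ b) := by
  have h1 := (fin K hK F c h (a / 3) (b / 3) (by linarith)).2 n
  have e1 : W x Λ n a b = ∑ᶠ j, VT F (n + j) (a / 3) (b / 3) := by
    unfold W
    exact finsum_congr fun j => hV.V _ _ _
  rw [hS.M', e1]
  have hCA : 0 < CA := by unfold CA; norm_num
  have hCF : 0 ≤ CF K := by unfold CF; positivity
  have h2 := hl a
  have h3 := hl b
  have h4 := hl0 a
  have h5 := hl0 b
  refine h1.trans ?_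
  calc CF K * (c (a / 3) + c (b / 3)) ≤ CF K * (2 * ℓ a + 2 * ℓ b) := by gcongr
    _ = (2 * CF K) * (ℓ a + ℓ b) := by ring
    _ ≤ CC K * (ℓ a + ℓ b) := by
      apply mul_le_mul_of_nonneg_right _ (by linarith)
      unfold CC
      linarith

theorem cv_high (hK : 0 < K) (h : Ctl K F c) (hV : VS x Λ F)
    (hl : ∀ y, c (y / 3) ≤ 2 * ℓ y) (hl0 : ∀ y, 0 ≤ ℓ y) (j : ℕ) (t : ℝ)
    (h0 : iteratedDeriv j Λ (x + I * t) ≠ 0) (h1 : iteratedDeriv (j + 1) Λ (x + I * t) = 0)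
    (hw : weight x Λ j t ≠ 0) : (j : ℝ) < CC K * ℓ t := by
  by_contra hcon
  rw [not_lt] at hcon
  apply hw
  rw [hV.w]
  refine h.vw_zero hK ?_ (fun h2 => h0 ((hV.g j t).2 h2)) ((hV.g (j + 1) t).1 h1)
  have hCA : 0 < CA := by unfold CA; norm_num
  have hCF : 0 ≤ CF K := by unfold CF; positivity
  have h2 := hl t
  have h4 := hl0 t
  calc 2 * K * c (t / 3) ≤ 2 * K * (2 * ℓ t) := by gcongr
    _ = (4 * K) * ℓ t := by ring
    _ ≤ CC K * ℓ t := by
      apply mul_le_mul_of_nonneg_right _ h4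
      unfold CC
      linarith
    _ ≤ j := hcon

theorem cv_exact (hK : 0 < K) (h : Ctl K F c) (hx : S_Ex F) (hS : Scl x Λ F u) (hV : VS x Λ F)
    (hl : ∀ y, c (y / 3) ≤ 2 * ℓ y) (hl0 : ∀ y, 0 ≤ ℓ y) (n : ℕ) (a b : ℝ) (hab : a < b)
    (hf : ∀ (T : ℝ) (s : ℂ), T = a ∨ T = b → iteratedDeriv n Λ s = 0 → s.re ≠ x →
      CC K * ℓ T * (s.re - x) ^ 2 < (s.im - T) ^ 2) :
    M x Λ n a b = 2 * W x Λ n a b := by
  have e1 : W x Λ n a b = ∑ᶠ j, VT F (n + j) (a / 3) (b / 3) := by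
    unfold W
    exact finsum_congr fun j => hV.V _ _ _
  rw [hS.M', e1]
  have hCA : 0 < CA := by unfold CA; norm_num
  have hCF : 0 ≤ CF K := by unfold CF; positivity
  have key : ∀ T : ℝ, T = a ∨ T = b → Fr ((2 * K + 1) * c (T / 3)) F n (T / 3) := by
    intro T hT s h1 h2
    have h3 := hf T (aff x s) hT ((hS.zero n s).1 h1) (by rw [aff_re]; intro h4; apply h2; linarith)
    rw [aff_re, aff_im] at h3
    have h4 := hl T
    have h5 := hl0 T
    have h6 : (2 * K + 1) * c (T / 3) ≤ CC K * ℓ T := by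
      calc (2 * K + 1) * c (T / 3) ≤ (2 * K + 1) * (2 * ℓ T) := by gcongr
        _ = (4 * K + 2) * ℓ T := by ring
        _ ≤ CC K * ℓ T := by
          apply mul_le_mul_of_nonneg_right _ h5
          unfold CC
          linarith
    have h7 : (2 * K + 1) * c (T / 3) * s.re ^ 2 ≤ CC K * ℓ T * s.re ^ 2 := by gcongr
    nlinarith
  exact h.exact hK hx (by linarith) (key a (Or.inl rfl)) (key b (Or.inr rfl))

theorem cv_near (h : FE F) (hS : Scl x Λ F u) (hV : VS x Λ F) (n k : ℕ) (t : ℝ)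
    (h0 : iteratedDeriv (n + k) Λ (x + I * t) ≠ 0) (h1 : iteratedDeriv (n + k + 1) Λ (x + I * t) = 0)
    (hw : weight x Λ (n + k) t ≠ 0) : ∃ s : ℂ, iteratedDeriv n Λ s = 0 ∧ s.re ≠ x ∧
      (s.im - t) ^ 2 ≤ (k + 1) * (s.re - x) ^ 2 := by
  obtain ⟨s, h2, h3, h4⟩ := t_A7 h n k (t / 3) (fun h2 => h0 ((hV.g _ t).2 h2)) ((hV.g _ t).1 h1)
    (by rw [← hV.w]; exact hw)
  refine ⟨aff x s, (hS.zero n s).1 h2, ?_, ?_⟩
  · rw [aff_re]
    intro h5
    apply h3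
    linarith
  · rw [aff_re, aff_im]
    have e1 : (3 * s.im - t) ^ 2 = 9 * (s.im - t / 3) ^ 2 := by ring
    have e2 : (x + 3 * s.re - x) ^ 2 = 9 * s.re ^ 2 := by ring
    rw [e1, e2]
    nlinarith

theorem cv_grh (hK : 0 < K) (h : Ctl K F c) (hx : S_Ex F) (hs : Slow c) (hS : Scl x Λ F u)
    (hV : VS x Λ F) : (∀ s : ℂ, Λ s = 0 → s.re = x) ↔ ∀ (j : ℕ) (t : ℝ),
      iteratedDeriv j Λ (x + I * t) ≠ 0 → iteratedDeriv (j + 1) Λ (x + I * t) = 0 →
      weight x Λ j t = 0 := by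
  have h1 := rh_iff h hK hx hs
  have e1 : (∀ s : ℂ, Λ s = 0 → s.re = x) ↔ ∀ s : ℂ, F s = 0 → s.re = 0 := by
    constructor
    · intro h2 s h3
      have h4 := h2 (aff x s) (by
        have := (hS.zero 0 s).1 (by rw [iteratedDeriv_zero]; exact h3)
        rwa [iteratedDeriv_zero] at this)
      rw [aff_re] at h4
      linarith
    · intro h2 s h3
      have h5 : aff x ((aff x).symm s) = s := (aff x).apply_symm_apply s
      have h4 := h2 ((aff x).symm s) (by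
        have := (hS.zero 0 ((aff x).symm s)).2 (by
          rw [iteratedDeriv_zero]
          have h6 : Λ (aff x ((aff x).symm s)) = 0 := by rw [h5]; exact h3
          exact h6)
        rwa [iteratedDeriv_zero] at this)
      have h6 := aff_re x ((aff x).symm s)
      rw [h5, h4] at h6
      linarith
  rw [e1, h1]
  constructor
  · intro h2 j t h3 h4
    rw [hV.w]
    exact h2 j (t / 3) (fun h5 => h3 ((hV.g j t).2 h5)) ((hV.g _ t).1 h4)
  · intro h2 j v h3 h4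
    have h5 := h2 j (3 * v) (fun h6 => h3 (by
      have := (hV.g j (3 * v)).1 h6
      rwa [mul_div_cancel_left₀ v (by norm_num : (3:ℝ) ≠ 0)] at this)) ((hV.g _ _).2 (by
        rw [mul_div_cancel_left₀ v (by norm_num : (3:ℝ) ≠ 0)]; exact h4))
    rw [hV.w, mul_div_cancel_left₀ v (by norm_num : (3:ℝ) ≠ 0)] at h5
    exact h5

theorem cv_fin (hK : 0 < K) (h : Ctl K F c) (hx : S_Ex F) (hs : Slow c) (hS : Scl x Λ F u)
    (hV : VS x Λ F) (n : ℕ) : {s : ℂ | iteratedDeriv n Λ s = 0 ∧ s.re ≠ x}.Finite ↔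
      {p : ℕ × ℝ | n ≤ p.1 ∧ iteratedDeriv p.1 Λ (x + I * p.2) ≠ 0 ∧
        iteratedDeriv (p.1 + 1) Λ (x + I * p.2) = 0 ∧ weight x Λ p.1 p.2 ≠ 0}.Finite := by
  have h1 := fin_iff h hK hx hs n
  have e1 : {s : ℂ | iteratedDeriv n Λ s = 0 ∧ s.re ≠ x} =
      aff x '' {s : ℂ | iteratedDeriv n F s = 0 ∧ s.re ≠ 0} := by
    ext s
    have h5 : aff x ((aff x).symm s) = s := (aff x).apply_symm_apply s
    constructor
    · rintro ⟨h2, h3⟩
      refine ⟨(aff x).symm s, ⟨(hS.zero n _).2 ?_, ?_⟩, h5⟩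
      · have h6 : iteratedDeriv n Λ (aff x ((aff x).symm s)) = 0 := by rw [h5]; exact h2
        exact h6
      · intro h6
        have h7 := aff_re x ((aff x).symm s)
        rw [h5, h6] at h7
        apply h3
        linarith
    · rintro ⟨z, ⟨h2, h3⟩, rfl⟩
      refine ⟨(hS.zero n z).1 h2, ?_⟩
      rw [aff_re]
      intro h4
      apply h3
      linarith
  have e2 : {p : ℕ × ℝ | n ≤ p.1 ∧ iteratedDeriv p.1 Λ (x + I * p.2) ≠ 0 ∧
      iteratedDeriv (p.1 + 1) Λ (x + I * p.2) = 0 ∧ weight x Λ p.1 p.2 ≠ 0} =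
      (fun p : ℕ × ℝ => (p.1, 3 * p.2)) '' Crt F n := by
    ext ⟨j, t⟩
    constructor
    · rintro ⟨h2, h3, h4, h5⟩
      refine ⟨(j, t / 3), ⟨h2, fun h6 => h3 ((hV.g j t).2 h6), (hV.g _ t).1 h4, ?_⟩, ?_⟩
      · rw [hV.w] at h5
        exact h5
      · simp only [Prod.mk.injEq, true_and]
        ring
    · rintro ⟨⟨j', v⟩, ⟨h2, h3, h4, h5⟩, h6⟩
      simp only [Prod.mk.injEq] at h6
      obtain ⟨rfl, rfl⟩ := h6
      have e3 : (3 * v) / 3 = v := mul_div_cancel_left₀ v (by norm_num : (3:ℝ) ≠ 0)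
      refine ⟨h2, fun h6 => h3 ?_, ?_, ?_⟩
      · have := (hV.g j' (3 * v)).1 h6
        rwa [e3] at this
      · refine (hV.g _ _).2 ?_
        rw [e3]
        exact h4
      · show weight x Λ j' (3 * v) ≠ 0
        rw [hV.w, e3]
        exact h5
  have i1 : Function.Injective (aff x) := (aff x).injective
  have i2 : Function.Injective (fun p : ℕ × ℝ => (p.1, 3 * p.2)) := by
    rintro ⟨a, b⟩ ⟨c, d⟩ h
    simp only [Prod.mk.injEq] at h
    obtain ⟨h1, h2⟩ := h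
    ext
    · exact h1
    · show b = d
      linarith
  rw [e1, e2, Set.finite_image_iff i1.injOn, Set.finite_image_iff i2.injOn]
  exact h1

theorem cv_foff (h : FE F) (hS : Scl x Λ F u) (n : ℕ) (a b : ℝ) : (off x Λ n a b).Finite := by
  have e : off x Λ n a b = off x Λ n (3 * (a / 3)) (3 * (b / 3)) := by
    congr 1 <;> ring
  rw [e, hS.off]
  exact ((zfin h n (a / 3) (b / 3)).subset fun s hs => hs.1).image _

theorem cv_fj (hK : 0 < K) (h : Ctl K F c) (hV : VS x Λ F) (a b : ℝ) (hab : a ≤ b) :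
    {j : ℕ | V x Λ j a b ≠ 0}.Finite := by
  obtain ⟨N, hN⟩ := exists_nat_ge (CF K * (c (a / 3) + c (b / 3)))
  refine (Set.finite_lt_nat N).subset fun j hj => ?_
  by_contra hcon
  simp only [Set.mem_setOf_eq, not_lt] at hcon
  apply hj
  rw [hV.V]
  exact ((fin K hK F c h (a / 3) (b / 3) (by linarith)).1 j (hN.trans (by exact_mod_cast hcon))).1

end Pool.Agent.Zk1.FH
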