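import Pool.Agent.Zk4.G.U

set_option autoImplicit false

/-!
# The counting functions for `Λ`, with the critical line `Re s = x`, in the windows `(a, b]`
-/

namespace Pool.Agent.Zk1.FH.D

open Complex

noncomputable section

/-- The zeros of `Λ^(n)` off the line `Re s = x` with ordinate in `(a, b]`. -/
def off (Λ : ℂ → ℂ) (x : ℝ) (n : ℕ) (a b : ℝ) : Set ℂ :=
  {s : ℂ | iteratedDeriv n Λ s = 0 ∧ s.re ≠ x ∧ a < s.im ∧ s.im ≤ b}

/-- The number of those, with multiplicity. -/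
def M (Λ : ℂ → ℂ) (x : ℝ) (n : ℕ) (a b : ℝ) : ℕ :=
  ∑ᶠ s ∈ off Λ x n a b, analyticOrderNatAt (iteratedDeriv n Λ) s

/-- The critical points of order `j` in `(a, b]`. -/
def critical (Λ : ℂ → ℂ) (x : ℝ) (j : ℕ) (a b : ℝ) : Set ℝ := {t : ℝ | a < t ∧ t ≤ b ∧
  iteratedDeriv j Λ (x + I * t) ≠ 0 ∧ iteratedDeriv (j + 1) Λ (x + I * t) = 0}

open Classical in
/-- The weight of Fourier. -/
def weight (Λ : ℂ → ℂ) (x : ℝ) (j : ℕ) (t : ℝ) : ℕ :=
  analyticOrderNatAt (iteratedDeriv (j + 1) Λ) (x + I * t) / 2 +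
  if IsLocalMin (fun u : ℝ => ‖iteratedDeriv j Λ (x + I * u)‖) t then 1 else 0

/-- The number of critical points of order `j` in `(a, b]`, with weights. -/
def V (Λ : ℂ → ℂ) (x : ℝ) (j : ℕ) (a b : ℝ) : ℕ := ∑ᶠ t ∈ critical Λ x j a b, weight Λ x j t

/-- The number of critical points of all orders `≥ n` in `(a, b]`, with weights. -/
def W (Λ : ℂ → ℂ) (x : ℝ) (n : ℕ) (a b : ℝ) : ℕ := ∑ᶠ j : ℕ, V Λ x (n + j) a b

end

end Pool.Agent.Zk1.FH.D
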