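import Pool.Agent.H24R2.JP.Had

set_option autoImplicit false

/-!
# Approximation by polynomials for entire functions of growth `exp (o(|z|^2))`, symmetric with respect to the imaginary axis
-/

namespace Pool.Agent.Zk1.FH

open Complex Filter Topology Polynomial Metric Pool.Agent.H24R2.JP

theorem base1 {F : ℂ → ℂ} (hF : Differentiable ℂ F) {ρ M : ℝ} (hρ : 0 < ρ)
    (hnz : ∀ u ∈ ball (0 : ℂ) ρ, F u ≠ 0) (hb : ∀ w ∈ ball (0 : ℂ) ρ, ‖F w‖ ≤ Real.exp M) :
    0 ≤ M - Real.log ‖F 0‖ ∧ ∃ E : ℂ → ℂ, ∀ w : ℂ, ‖w‖ < ρ / 2 →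
      F w = F 0 * cexp (deriv F 0 / F 0 * w + E w) ∧
      ‖E w‖ ≤ 16 * (M - Real.log ‖F 0‖) * (‖w‖ / ρ) ^ 2 := by
  have h0 : F 0 ≠ 0 := hnz 0 (mem_ball_self hρ)
  have h0n : 0 < ‖F 0‖ := norm_pos_iff.2 h0
  have hg : DifferentiableOn ℂ (fun z => deriv F z / F z) (ball 0 ρ) := by
    refine DifferentiableOn.div ?_ hF.differentiableOn hnz
    exact (hF.contDiff (n := 2)).differentiable_deriv_two.differentiableOn
  obtain ⟨L0, hL0⟩ := hg.isExactOn_ball
  set L : ℂ → ℂ := fun z => L0 z - L0 0 with hLdef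
  have hL : ∀ z ∈ ball (0 : ℂ) ρ, HasDerivAt L (deriv F z / F z) z := fun z hz =>
    (hL0 z hz).sub_const _
  have hLz : L 0 = 0 := by simp [hLdef]
  have hconst : ∀ z ∈ ball (0 : ℂ) ρ, F z * cexp (-L z) = F 0 := by
    intro z hz
    have hd : ∀ x ∈ ball (0 : ℂ) ρ, HasDerivAt (fun y => F y * cexp (-L y)) 0 x := by
      intro x hx
      have h1 := (hF x).hasDerivAt.mul ((hL x hx).neg.cexp)
      have e : deriv F x * cexp (-L x) + F x * (cexp (-L x) * -(deriv F x / F x)) = 0 := by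
        have hx' := hnz x hx
        field_simp
        ring
      have h1' : HasDerivAt (fun y => F y * cexp (-L y))
        (deriv F x * cexp (-L x) + F x * (cexp (-L x) * -(deriv F x / F x))) x := h1
      rwa [e] at h1'
    have h2 := (convex_ball (0 : ℂ) ρ).is_const_of_fderivWithin_eq_zero (𝕜 := ℂ)
      (f := fun y => F y * cexp (-L y))
      (fun x hx => (hd x hx).differentiableAt.differentiableWithinAt) (by
        intro x hx
        rw [((hd x hx).hasFDerivAt.hasFDerivWithinAt (s := ball (0 : ℂ) ρ)).fderivWithin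
          (isOpen_ball.uniqueDiffWithinAt hx)]
        ext
        simp) hz (mem_ball_self hρ)
    simpa [hLz] using h2
  have hFL : ∀ z ∈ ball (0 : ℂ) ρ, F z = F 0 * cexp (L z) := by
    intro z hz
    rw [← hconst z hz, mul_assoc, ← Complex.exp_add]
    simp
  have hnorm : ∀ z ∈ ball (0 : ℂ) ρ, ‖F z‖ = Real.exp (Real.log ‖F 0‖ + (L z).re) := by
    intro z hz
    rw [hFL z hz, norm_mul, Complex.norm_exp, Real.exp_add, Real.exp_log h0n]
  obtain ⟨A, hA⟩ : ∃ A : ℝ, A = M - Real.log ‖F 0‖ := ⟨_, rfl⟩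
  rw [← hA]
  have hre : ∀ z ∈ ball (0 : ℂ) ρ, (L z).re ≤ A := by
    intro z hz
    have h1 := hb z hz
    rw [hnorm z hz, Real.exp_le_exp] at h1
    rw [hA]
    linarith
  have hA0 : 0 ≤ A := by
    have := hre 0 (mem_ball_self hρ)
    rwa [hLz] at this
  have hLb : ∀ w : ℂ, ‖w‖ < ρ / 2 → ‖L w‖ ≤ 2 * A := by
    intro w hw
    have hwρ : ‖w‖ < ρ := by linarith
    have hwb : w ∈ ball (0 : ℂ) ρ := by simpa using hwρ
    have hden : 0 < ρ - ‖w‖ := by linarith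
    refine le_of_forall_pos_le_add (fun δ hδ => ?_)
    have h1 := Complex.borelCaratheodory_zero (f := L) (R := ρ) (z := w)
      (M := A + δ / 2) (by linarith)
      (fun z hz => (hL z hz).differentiableAt.differentiableWithinAt)
      (fun z hz => by
        show (L z).re ≤ _
        linarith [hre z hz]) hρ hwb hLz
    refine h1.trans ?_
    rw [div_le_iff₀ hden]
    have h2 : 2 * (A + δ / 2) * ‖w‖ ≤ 2 * (A + δ / 2) * (ρ - ‖w‖) :=
      mul_le_mul_of_nonneg_left (by linarith) (by linarith)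
    linarith
  have hρ2 : 0 < ρ / 2 := by positivity
  obtain ⟨β, hβ⟩ : ∃ β : ℂ, β = deriv F 0 / F 0 := ⟨_, rfl⟩
  have hLd : HasDerivAt L β 0 := by
    rw [hβ]
    exact hL 0 (mem_ball_self hρ)
  have hsub : ball (0 : ℂ) (ρ / 2) ⊆ ball 0 ρ := ball_subset_ball (by linarith)
  have hLdo : DifferentiableOn ℂ L (ball 0 (ρ / 2)) := fun z hz =>
    (hL z (hsub hz)).differentiableAt.differentiableWithinAt
  have hβn : ‖β‖ ≤ 2 * A / (ρ / 2) := by
    have h1 := Complex.norm_deriv_le_div_of_mapsTo_ball (R₂ := 2 * A) hLdo (by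
      intro z hz
      rw [hLz, mem_closedBall_zero_iff]
      exact hLb z (by simpa using hz)) hρ2
    rwa [hLd.deriv] at h1
  rw [← hβ]
  refine ⟨hA0, fun w => L w - β * w, fun w hw => ⟨?_, ?_⟩⟩
  · have hwb : w ∈ ball (0 : ℂ) ρ := hsub (by simpa using hw)
    rw [hFL w hwb]
    congr 2
    ring
  · have h1 := Complex.dist_le_mul_div_pow_of_mapsTo_ball_of_isLittleO
      (f := fun w : ℂ => L w - β * w) (c := 0) (z := w) (R₁ := ρ / 2) (R₂ := 4 * A) (n := 1)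
      (hLdo.sub (by fun_prop)) ?_ ?_ (by simpa using hw)
    · simp only [hLz, mul_zero, sub_zero, dist_zero_right] at h1
      refine h1.trans (le_of_eq ?_)
      rw [show (1 + 1 : ℕ) = 2 from rfl]
      field_simp
      ring
    · intro z hz
      simp only [hLz, mul_zero, sub_zero, mem_closedBall_zero_iff]
      have hz' : ‖z‖ < ρ / 2 := by simpa using hz
      refine (norm_sub_le _ _).trans ?_
      rw [norm_mul]
      have h2 := hLb z hz'
      have h3 : ‖β‖ * ‖z‖ ≤ 2 * A / (ρ / 2) * (ρ / 2) :=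
        mul_le_mul hβn hz'.le (norm_nonneg _) (by positivity)
      rw [div_mul_cancel₀ _ hρ2.ne'] at h3
      linarith
    · have h2 := hLd.isLittleO
      simp only [hLz, sub_zero, smul_eq_mul, mul_zero, pow_one] at h2 ⊢
      refine h2.norm_right.congr_left fun z => ?_
      ring

/-- powers approximate the exponential function -/
theorem pow_exp {z : ℂ} {m : ℕ} (hm : 0 < m) (hz : ‖z‖ ≤ m / 2) :
    ∃ δ : ℂ, (1 + z / m) ^ m = cexp (z + δ) ∧ ‖δ‖ ≤ ‖z‖ ^ 2 / m := by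
  have hmr : (0 : ℝ) < m := by exact_mod_cast hm
  have hmc : (m : ℂ) ≠ 0 := by exact_mod_cast hm.ne'
  have hu : ‖z / m‖ ≤ 1 / 2 := by
    rw [norm_div, Complex.norm_natCast, div_le_iff₀ hmr]
    linarith
  have hne : 1 + z / m ≠ 0 := by
    intro h
    have h1 : z / m = -1 := by linear_combination h
    rw [h1, norm_neg, norm_one] at hu
    norm_num at hu
  refine ⟨m * (Complex.log (1 + z / m) - z / m), ?_, ?_⟩
  · have h1 : z + m * (Complex.log (1 + z / m) - z / m) = m * Complex.log (1 + z / m) := by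
      field_simp
      ring
    rw [h1, Complex.exp_nat_mul, Complex.exp_log hne]
  · have h1 := Complex.norm_log_one_add_sub_self_le (z := z / m) (by linarith)
    rw [norm_mul, Complex.norm_natCast]
    have h2 : (1 - ‖z / m‖)⁻¹ ≤ 2 := by
      rw [inv_le_comm₀ (by linarith) (by norm_num)]
      linarith
    have h3 : ‖z / m‖ ^ 2 * (1 - ‖z / m‖)⁻¹ / 2 ≤ ‖z / m‖ ^ 2 := by
      have := mul_le_mul_of_nonneg_left h2 (sq_nonneg ‖z / m‖)
      linarith
    calc (m : ℝ) * ‖Complex.log (1 + z / m) - z / m‖ ≤ m * ‖z / m‖ ^ 2 := by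
          apply mul_le_mul_of_nonneg_left (h1.trans h3) hmr.le
      _ = ‖z‖ ^ 2 / m := by
          rw [norm_div, Complex.norm_natCast]
          field_simp

theorem had_main {f : ℂ → ℂ} (hf : Differentiable ℂ f) (h0 : f 0 ≠ 0)
    (hsym : ∀ x, f ((starRingEnd ℂ) x) = (starRingEnd ℂ) (f x)) (N : ℕ) {M : ℝ}
    (hb : ∀ w, ‖w‖ ≤ 2 * ((N : ℝ) + 1) → ‖f w‖ ≤ Real.exp M) :
    ∃ (Q : ℂ[X]) (L : ℂ → ℂ), (∀ w, Q.IsRoot w → f w = 0 ∨ w.im = 0) ∧
      ∀ w : ℂ, ‖w‖ < ((N : ℝ) + 1) / 2 → f w = Q.eval w * cexp (L w) ∧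
        ‖L w‖ ≤ 16 * (M + |Real.log ‖f 0‖|) *
          (‖w‖ / ((N : ℝ) + 1)) ^ 2 + 1 / ((N : ℝ) + 1) := by
  have hρ : 0 < (N : ℝ) + 1 := by positivity
  obtain ⟨n, hn⟩ := exists_nat_ge
    (∑ᶠ u, (MeromorphicOn.divisor f (closedBall 0 ((N : ℝ) + 1)) u : ℝ) * 1)
  obtain ⟨P, G, hG, hG0, hGb, hFG, hnz⟩ := had_split (M := M) hρ n f hf h0 hsym (fun w hw => by
      have hw' : ‖w‖ ≤ 2 * ((N : ℝ) + 1) := by simpa using hw
      exact hb w hw') hn
  obtain ⟨hA, E, hE⟩ := base1 hG hρ (fun u hu => hnz u (ball_subset_closedBall hu))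
    (fun w hw => hGb w (ball_subset_closedBall (ball_subset_ball (by linarith) hw)))
  -- symmetry of `G`
  have hP0 : P ≠ 0 := by
    rintro rfl
    have := hFG 0
    rw [map_zero, zero_mul] at this
    exact h0 this
  have hGs : ∀ x, G ((starRingEnd ℂ) x) = (starRingEnd ℂ) (G x) := by
    refine had_symm (q := fun w => aeval w P) hG.continuous hFG hsym
      (fun x => Polynomial.aeval_conj P x) ?_
    refine ((dense_univ (X := ℂ)).sdiff_finite
      ((P.map (algebraMap ℝ ℂ)).roots.toFinset.finite_toSet)).mono ?_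
    intro w hw h
    apply hw.2
    rw [Finset.mem_coe, Multiset.mem_toFinset, Polynomial.mem_roots
      ((Polynomial.map_ne_zero_iff (algebraMap ℝ ℂ).injective).2 hP0), Polynomial.IsRoot.def,
      Polynomial.eval_map_algebraMap]
    exact h
  have hG00 : (starRingEnd ℂ) (G 0) = G 0 := by
    rw [← hGs, map_zero]
  have hG0' : (starRingEnd ℂ) (deriv G 0) = deriv G 0 := by
    have h1 := (hG 0).hasDerivAt.conj_conj
    have h2 : ((starRingEnd ℂ) ∘ G ∘ (starRingEnd ℂ)) = G := by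
      funext x
      simp only [Function.comp_apply]
      rw [hGs, Complex.conj_conj]
    rw [h2, map_zero] at h1
    exact h1.deriv.symm
  obtain ⟨b, hbb⟩ : ∃ b : ℝ, (b : ℂ) = deriv G 0 / G 0 := by
    refine ⟨(deriv G 0 / G 0).re, ?_⟩
    apply Complex.conj_eq_iff_re.1
    rw [map_div₀, hG0', hG00]
  -- the number of factors
  obtain ⟨m, hm⟩ : ∃ m : ℕ, |b| * ((N : ℝ) + 1) + (|b| * ((N : ℝ) + 1)) ^ 2 * ((N : ℝ) + 1) + 1 ≤ m :=
    exists_nat_ge _
  have hB0 : 0 ≤ |b| * ((N : ℝ) + 1) := by positivity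
  have hB1 : 0 ≤ (|b| * ((N : ℝ) + 1)) ^ 2 * ((N : ℝ) + 1) := by positivity
  have hm0 : (0 : ℝ) < m := by linarith
  have hmn : 0 < m := by exact_mod_cast hm0
  have hδ : ∀ w : ℂ, ‖w‖ < ((N : ℝ) + 1) / 2 → ∃ δ : ℂ,
      (1 + ((b : ℂ) * w) / m) ^ m = cexp ((b : ℂ) * w + δ) ∧ ‖δ‖ ≤ 1 / ((N : ℝ) + 1) := by
    intro w hw
    have h1 : ‖(b : ℂ) * w‖ ≤ |b| * ((N : ℝ) + 1) / 2 := by
      rw [norm_mul, Complex.norm_real, Real.norm_eq_abs]
      calc |b| * ‖w‖ ≤ |b| * (((N : ℝ) + 1) / 2) := mul_le_mul_of_nonneg_left hw.le (abs_nonneg _)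
        _ = |b| * ((N : ℝ) + 1) / 2 := by ring
    obtain ⟨δ, h2, h3⟩ := pow_exp (z := (b : ℂ) * w) hmn (by linarith)
    refine ⟨δ, h2, h3.trans ?_⟩
    rw [div_le_div_iff₀ hm0 hρ]
    have h4 : ‖(b : ℂ) * w‖ ^ 2 ≤ (|b| * ((N : ℝ) + 1)) ^ 2 :=
      pow_le_pow_left₀ (norm_nonneg _) (by linarith) 2
    have h5 := mul_le_mul_of_nonneg_right h4 hρ.le
    linarith
  choose! δ hδ1 hδ2 using hδ
  refine ⟨Polynomial.C (f 0) * (P.map (algebraMap ℝ ℂ)) *
    (1 + Polynomial.C ((b : ℂ) / m) * Polynomial.X) ^ m, fun w => E w - δ w, ?_, ?_⟩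
  · intro w hw
    rw [Polynomial.IsRoot.def, eval_mul, eval_mul, eval_C, Polynomial.eval_map_algebraMap, eval_pow, eval_add,
      eval_one, eval_mul, eval_C, eval_X] at hw
    rcases mul_eq_zero.1 hw with h | h
    · rcases mul_eq_zero.1 h with h | h
      · exact absurd h h0
      · left
        rw [hFG, h, zero_mul]
    · right
      have h1 := pow_eq_zero_iff hmn.ne' |>.1 h
      have h2 : (((b / m : ℝ)) : ℂ) * w = -1 := by
        push_cast
        linear_combination h1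
      have h3 := congrArg Complex.re h2
      have h4 := congrArg Complex.im h2
      rw [Complex.re_ofReal_mul, neg_re, one_re] at h3
      rw [Complex.im_ofReal_mul, neg_im, one_im, neg_zero] at h4
      rcases mul_eq_zero.1 h4 with h5 | h5
      · rw [h5, zero_mul] at h3
        norm_num at h3
      · exact h5
  · intro w hw
    obtain ⟨h1, h2⟩ := hE w hw
    constructor
    · rw [eval_mul, eval_mul, eval_C, Polynomial.eval_map_algebraMap, eval_pow, eval_add,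
        eval_one, eval_mul, eval_C, eval_X, hFG w, h1, ← hbb, hG0,
        show (b : ℂ) / m * w = ((b : ℂ) * w) / m by ring, hδ1 w hw,
        show (b : ℂ) * w + E w = ((b : ℂ) * w + δ w) + (E w - δ w) by ring, Complex.exp_add]
      ring
    · refine (norm_sub_le _ _).trans (add_le_add ?_ (hδ2 w hw))
      refine h2.trans ?_
      apply mul_le_mul_of_nonneg_right _ (sq_nonneg _)
      rw [hG0]
      have := neg_abs_le (Real.log ‖f 0‖)
      linarith

/-- the approximation for functions symmetric with respect to the real axis -/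
theorem had_real {f : ℂ → ℂ} (hf : Differentiable ℂ f) (h0 : f 0 ≠ 0)
    (hsym : ∀ x, f ((starRingEnd ℂ) x) = (starRingEnd ℂ) (f x))
    (hb : ∀ δ : ℝ, 0 < δ → ∃ K : ℝ, 0 < K ∧ ∀ w, ‖f w‖ ≤ K * Real.exp (δ * ‖w‖ ^ 2)) :
    ∃ Q : ℕ → ℂ[X], (∀ N w, (Q N).IsRoot w → f w = 0 ∨ w.im = 0) ∧
      TendstoLocallyUniformly (fun (N : ℕ) (w : ℂ) => (Q N).eval w) f atTop := by
  have hn0 : 0 < ‖f 0‖ := norm_pos_iff.2 h0
  -- maximum points
  have hmax : ∀ N : ℕ, ∃ w : ℂ, ‖w‖ ≤ 2 * ((N : ℝ) + 1) ∧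
      ∀ z : ℂ, ‖z‖ ≤ 2 * ((N : ℝ) + 1) → ‖f z‖ ≤ ‖f w‖ := by
    intro N
    obtain ⟨w, hw, hm⟩ := (isCompact_closedBall (0 : ℂ) (2 * ((N : ℝ) + 1))).exists_isMaxOn
      ⟨0, by simp; positivity⟩ (hf.continuous.norm.continuousOn)
    exact ⟨w, by simpa using hw, fun z hz => hm (by simpa using hz)⟩
  choose W hW1 hW2 using hmax
  have hWpos : ∀ N, 0 < ‖f (W N)‖ := fun N => lt_of_lt_of_le hn0 (hW2 N 0 (by simp; positivity))
  obtain ⟨M, hM⟩ : ∃ M : ℕ → ℝ, M = fun N => Real.log ‖f (W N)‖ := ⟨_, rfl⟩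
  have hexpM : ∀ N, Real.exp (M N) = ‖f (W N)‖ := fun N => by rw [hM]; exact Real.exp_log (hWpos N)
  have hMlow : ∀ N, -|Real.log ‖f 0‖| ≤ M N := by
    intro N
    have h1 : Real.log ‖f 0‖ ≤ M N := by
      rw [hM]
      exact Real.log_le_log hn0 (hW2 N 0 (by simp; positivity))
    linarith [neg_abs_le (Real.log ‖f 0‖)]
  choose Q L h1 h2 using fun N : ℕ => had_main hf h0 hsym N (M := M N)
    (fun w hw => by rw [hexpM]; exact hW2 N w hw)
  refine ⟨Q, h1, ?_⟩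
  rw [Metric.tendstoLocallyUniformly_iff]
  intro ε hε x
  obtain ⟨r, hr⟩ : ∃ r : ℝ, r = ‖x‖ + 1 := ⟨_, rfl⟩
  have hr0 : 0 < r := by rw [hr]; positivity
  obtain ⟨K1, hK1, hb1⟩ := hb 1 one_pos
  obtain ⟨B, hB⟩ : ∃ B : ℝ, B = K1 * Real.exp (r ^ 2) := ⟨_, rfl⟩
  have hB0 : 0 < B := by rw [hB]; positivity
  refine ⟨ball 0 r, ?_, ?_⟩
  · apply isOpen_ball.mem_nhds
    rw [mem_ball_zero_iff, hr]
    linarith
  have hδ : 0 < min 1 (ε / (2 * B)) := by positivity
  obtain ⟨D, hD⟩ : ∃ D : ℝ, D = min 1 (ε / (2 * B)) := ⟨_, rfl⟩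
  rw [← hD] at hδ
  obtain ⟨η, hη⟩ : ∃ η : ℝ, η = D / (128 * r ^ 2) := ⟨_, rfl⟩
  have hη0 : 0 < η := by rw [hη]; positivity
  obtain ⟨K2, hK2, hb2⟩ := hb η hη0
  have t1 : Tendsto (fun N : ℕ => (N : ℝ) + 1) atTop atTop :=
    tendsto_atTop_add_const_right _ _ tendsto_natCast_atTop_atTop
  have t2 : Tendsto (fun N : ℕ => 16 * (|Real.log K2| + 2 * |Real.log ‖f 0‖|) * r ^ 2 * ((N : ℝ) + 1)⁻¹ +
      ((N : ℝ) + 1)⁻¹) atTop (𝓝 0) := by
    have a2 := tendsto_inv_atTop_zero.comp t1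
    have := (a2.const_mul (16 * (|Real.log K2| + 2 * |Real.log ‖f 0‖|) * r ^ 2)).add a2
    simpa using this
  filter_upwards [t1.eventually_gt_atTop (2 * r), t2.eventually (gt_mem_nhds (half_pos hδ))] with N hN1 hN2
  intro y hy
  have hyr : ‖y‖ < r := by simpa using hy
  obtain ⟨h3, h4⟩ := h2 N y (by linarith)
  obtain ⟨m, hm⟩ : ∃ m : ℝ, m = (N : ℝ) + 1 := ⟨_, rfl⟩
  rw [← hm] at h4 hN1 hN2
  have hm1 : 1 ≤ m := by rw [hm]; linarith [Nat.cast_nonneg (α := ℝ) N]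
  have hm0 : 0 < m := by linarith
  have hMup : M N ≤ |Real.log K2| + 4 * η * m ^ 2 := by
    have h5 : ‖f (W N)‖ ≤ K2 * Real.exp (η * (2 * m) ^ 2) := by
      refine (hb2 _).trans ?_
      have h6 : ‖W N‖ ^ 2 ≤ (2 * m) ^ 2 := pow_le_pow_left₀ (norm_nonneg _) (by rw [hm]; exact hW1 N) 2
      have h7 := mul_le_mul_of_nonneg_left h6 hη0.le
      exact mul_le_mul_of_nonneg_left (Real.exp_le_exp.2 h7) hK2.le
    have h6 : M N ≤ Real.log (K2 * Real.exp (η * (2 * m) ^ 2)) := by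
      rw [hM]
      exact Real.log_le_log (hWpos N) h5
    rw [Real.log_mul hK2.ne' (Real.exp_pos _).ne', Real.log_exp] at h6
    have h7 := le_abs_self (Real.log K2)
    linarith [show η * (2 * m) ^ 2 = 4 * η * m ^ 2 by ring]
  have h5 : (‖y‖ / m) ^ 2 ≤ (r / m) ^ 2 :=
    pow_le_pow_left₀ (by positivity) (div_le_div_of_nonneg_right hyr.le hm0.le) 2
  have hlow := hMlow N
  have h7 : ‖L N y‖ < D := by
    have h8 : 0 ≤ 16 * (M N + |Real.log ‖f 0‖|) := by linarith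
    have h9 : 16 * (M N + |Real.log ‖f 0‖|) * (‖y‖ / m) ^ 2 ≤
        16 * (|Real.log K2| + 4 * η * m ^ 2 + 2 * |Real.log ‖f 0‖|) * (r / m) ^ 2 := by
      refine mul_le_mul ?_ h5 (sq_nonneg _) ?_
      · have := abs_nonneg (Real.log ‖f 0‖)
        linarith
      · positivity
    have e1 : 16 * (|Real.log K2| + 4 * η * m ^ 2 + 2 * |Real.log ‖f 0‖|) * (r / m) ^ 2 =
        16 * (|Real.log K2| + 2 * |Real.log ‖f 0‖|) * r ^ 2 * (1 / m ^ 2) + 64 * η * r ^ 2 := by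
      field_simp
      ring
    have e2 : 64 * η * r ^ 2 = D / 2 := by
      rw [hη]
      field_simp
      norm_num
    have e4 : 1 / m ^ 2 ≤ m⁻¹ := by
      rw [inv_eq_one_div]
      apply one_div_le_one_div_of_le hm0
      nlinarith
    have h10 : 16 * (|Real.log K2| + 2 * |Real.log ‖f 0‖|) * r ^ 2 * (1 / m ^ 2) ≤
        16 * (|Real.log K2| + 2 * |Real.log ‖f 0‖|) * r ^ 2 * m⁻¹ :=
      mul_le_mul_of_nonneg_left e4 (by positivity)
    have e3 : 1 / m = m⁻¹ := one_div m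
    rw [e3] at h4
    linarith
  have h8 : ‖L N y‖ < 1 := h7.trans_le (by rw [hD]; exact min_le_left _ _)
  have h9 : ‖L N y‖ < ε / (2 * B) := h7.trans_le (by rw [hD]; exact min_le_right _ _)
  have h10 : (Q N).eval y = f y * cexp (-(L N y)) := by
    rw [h3, mul_assoc, ← Complex.exp_add]
    simp
  rw [dist_eq_norm, h10]
  have h11 : f y - f y * cexp (-(L N y)) = -(f y * (cexp (-(L N y)) - 1)) := by ring
  rw [h11, norm_neg, norm_mul]
  have h12 : ‖cexp (-(L N y)) - 1‖ ≤ 2 * ‖-(L N y)‖ :=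
    Complex.norm_exp_sub_one_le (by rw [norm_neg]; exact h8.le)
  rw [norm_neg] at h12
  have h13 : ‖f y‖ ≤ B := by
    refine (hb1 y).trans ?_
    rw [hB, one_mul]
    exact mul_le_mul_of_nonneg_left (Real.exp_le_exp.2 (pow_le_pow_left₀ (norm_nonneg _) hyr.le 2)) hK1.le
  calc ‖f y‖ * ‖cexp (-(L N y)) - 1‖ ≤ B * (2 * ‖L N y‖) :=
        mul_le_mul h13 h12 (norm_nonneg _) hB0.le
    _ < B * (2 * (ε / (2 * B))) := by
        apply mul_lt_mul_of_pos_left _ hB0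
        linarith
    _ = ε := by field_simp

/-- the approximation for functions symmetric with respect to the imaginary axis -/
theorem had_slow {Φ : ℂ → ℂ} (hΦ : Differentiable ℂ Φ)
    (hsym : ∀ z : ℂ, Φ (-((starRingEnd ℂ) z)) = (starRingEnd ℂ) (Φ z)) (hne : ∃ z, Φ z ≠ 0)
    (hb : ∀ δ : ℝ, 0 < δ → ∃ K : ℝ, 0 < K ∧ ∀ w, ‖Φ w‖ ≤ K * Real.exp (δ * ‖w‖ ^ 2))
    (hz : ∀ s : ℂ, Φ s = 0 → |s.re| ≤ 1 / 2) :
    ∃ Q : ℕ → ℂ[X], (∀ N (z : ℂ), (Q N).IsRoot z → |z.re| ≤ 1 / 2) ∧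
      TendstoLocallyUniformly (fun (N : ℕ) (z : ℂ) => (Q N).eval z) Φ atTop := by
  obtain ⟨t0, ht0⟩ : ∃ t0 : ℝ, Φ (I * t0) ≠ 0 := by
    have han : AnalyticOnNhd ℂ Φ Set.univ := fun z _ => hΦ.analyticAt z
    rcases (han 0 (Set.mem_univ _)).eventually_eq_zero_or_eventually_ne_zero with h | h
    · exfalso
      obtain ⟨z, hz'⟩ := hne
      exact hz' (han.eqOn_zero_of_preconnected_of_eventuallyEq_zero isPreconnected_univ
        (Set.mem_univ 0) h (Set.mem_univ z))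
    · have h1 : Tendsto (fun t : ℝ => I * (t : ℂ)) (𝓝[≠] 0) (𝓝[≠] 0) := by
        rw [tendsto_nhdsWithin_iff]
        constructor
        · have h2 : Tendsto (fun t : ℝ => I * (t : ℂ)) (𝓝 0) (𝓝 (I * ((0 : ℝ) : ℂ))) :=
            (Continuous.tendsto (by fun_prop) 0)
          rw [Complex.ofReal_zero, mul_zero] at h2
          exact h2.mono_left nhdsWithin_le_nhds
        · filter_upwards [self_mem_nhdsWithin] with t ht h3
          rcases mul_eq_zero.1 h3 with h4 | h4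
          · exact Complex.I_ne_zero h4
          · exact ht (by exact_mod_cast h4)
      exact (h1.eventually h).exists
  obtain ⟨f, hf⟩ : ∃ f : ℂ → ℂ, f = fun x => Φ (I * x + I * t0) := ⟨_, rfl⟩
  have hfd : Differentiable ℂ f := by
    rw [hf]
    exact hΦ.comp (by fun_prop)
  have hf0 : f 0 ≠ 0 := by
    rw [hf]
    simpa using ht0
  have hfs : ∀ x, f ((starRingEnd ℂ) x) = (starRingEnd ℂ) (f x) := by
    intro x
    rw [hf]
    simp only
    rw [← hsym]
    congr 1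
    simp only [map_add, map_mul, Complex.conj_I, Complex.conj_ofReal]
    ring
  have hfb : ∀ δ : ℝ, 0 < δ → ∃ K : ℝ, 0 < K ∧ ∀ w, ‖f w‖ ≤ K * Real.exp (δ * ‖w‖ ^ 2) := by
    intro δ hδ
    obtain ⟨K, hK, h⟩ := hb (δ / 2) (by positivity)
    refine ⟨K * Real.exp (δ * t0 ^ 2), by positivity, fun w => ?_⟩
    rw [hf]
    refine (h _).trans ?_
    rw [mul_assoc, ← Real.exp_add]
    refine mul_le_mul_of_nonneg_left (Real.exp_le_exp.2 ?_) hK.le
    have h1 : ‖I * w + I * (t0 : ℂ)‖ ≤ ‖w‖ + |t0| := by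
      refine (norm_add_le _ _).trans (le_of_eq ?_)
      rw [norm_mul, norm_mul, Complex.norm_I, Complex.norm_real, Real.norm_eq_abs, one_mul, one_mul]
    have h2 : ‖I * w + I * (t0 : ℂ)‖ ^ 2 ≤ 2 * ‖w‖ ^ 2 + 2 * t0 ^ 2 := by
      have h3 : ‖I * w + I * (t0 : ℂ)‖ ^ 2 ≤ (‖w‖ + |t0|) ^ 2 := pow_le_pow_left₀ (norm_nonneg _) h1 2
      have h4 : |t0| ^ 2 = t0 ^ 2 := sq_abs t0
      nlinarith [sq_nonneg (‖w‖ - |t0|)]
    nlinarith
  obtain ⟨Q, hQ, hlim⟩ := had_real hfd hf0 hfs hfb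
  have hfΦ : ∀ z : ℂ, f (-I * z - t0) = Φ z := by
    intro z
    have h1 : I * (-I * z - (t0 : ℂ)) + I * (t0 : ℂ) = z := by
      have := Complex.I_mul_I
      linear_combination (-z) * this
    rw [hf]
    simp only [h1]
  have hev : ∀ (N : ℕ) (z : ℂ), ((Q N).comp (Polynomial.C (-I) * Polynomial.X -
      Polynomial.C (t0 : ℂ))).eval z = (Q N).eval (-I * z - t0) := by
    intro N z
    rw [eval_comp, eval_sub, eval_mul, eval_C, eval_X, eval_C]
  refine ⟨fun N => (Q N).comp (Polynomial.C (-I) * Polynomial.X - Polynomial.C (t0 : ℂ)), ?_, ?_⟩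
  · intro N z hr
    rw [Polynomial.IsRoot.def, hev] at hr
    rcases hQ N _ hr with h | h
    · rw [hfΦ] at h
      exact hz z h
    · have h1 : (-I * z - (t0 : ℂ)).im = -z.re := by simp
      rw [h1] at h
      rw [show z.re = 0 by linarith, abs_zero]
      norm_num
  · have h1 := hlim.comp (fun z : ℂ => -I * z - t0) (by fun_prop)
    have h2 : (f ∘ fun z : ℂ => -I * z - t0) = Φ := funext hfΦ
    rw [h2] at h1
    refine h1.congr fun N z => ?_
    exact (hev N z).symm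

end Pool.Agent.Zk1.FH
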