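import Pool.Agent.TH839.UH.EP
import Pool.Agent.Zk1.FH.Had2
import Pool.Agent.Zk4.G.U

set_option autoImplicit false

/-!
# Normalised L-functions of the class `EP.HW`: input for the class `FE`
-/

open Complex Filter Topology Set Polynomial
open scoped ComplexConjugate

namespace Pool.Agent.Zk1.FH

open Pool.Agent.TH839.UH Pool.Agent.W169.HF H353.E Pool.Agent.W355.UN Pool.Agent.Zk4.G

theorem gaD_le {m : ℕ} {N : ℝ} (hN : 1 ≤ N) {μ : Fin m → ℂ} (hμ : ∀ j, (μ j).re ≤ 1 / 2) (y : ℝ) :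
    ‖gaD N μ (7 / 2 + (y : ℂ) * I)‖ ≤ Real.log (W355.UN.cond N μ y) + 12 * m := by
  have hN0 : 0 < N := by linarith
  have hp : ∀ j, 0 < 1 + ‖(y : ℂ) * I - μ j‖ := fun j => by positivity
  have hpp : 0 < ∏ j, (1 + ‖(y : ℂ) * I - μ j‖) := Finset.prod_pos fun j _ => hp j
  unfold W355.UN.cond
  rw [Real.log_mul hN0.ne' hpp.ne', Real.log_prod (fun j _ => (hp j).ne')]
  unfold gaD
  have hlp := logpi
  have h1 : ‖(((Real.log N / 2 : ℝ)) : ℂ)‖ ≤ Real.log N := by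
    have := Real.log_nonneg hN
    rw [Complex.norm_real, Real.norm_eq_abs, abs_of_nonneg (by linarith)]
    linarith
  have hsre : (7 / 2 + (y : ℂ) * I).re = 7 / 2 := by
    rw [show (7 / 2 + (y : ℂ) * I) = ((7 / 2 : ℝ) : ℂ) + (y : ℂ) * I by push_cast; ring]
    simp
  have h2 : ∀ j, ‖(((-(Real.log Real.pi) / 2 : ℝ)) : ℂ) +
      logDeriv Gamma ((7 / 2 + (y : ℂ) * I - μ j) / 2) / 2‖ ≤
      Real.log (1 + ‖(y : ℂ) * I - μ j‖) + 12 := fun j => by
    obtain ⟨_, _, hz⟩ := zre (s := 7 / 2 + (y : ℂ) * I) (hμ j) (by rw [hsre]; norm_num)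
    obtain ⟨z, hzd⟩ : ∃ z : ℂ, z = (7 / 2 + (y : ℂ) * I - μ j) / 2 := ⟨_, rfl⟩
    rw [← hzd] at hz ⊢
    have h3 := dig_aux hz
    have h4 : ‖(((-(Real.log Real.pi) / 2 : ℝ)) : ℂ)‖ ≤ 6 / 10 := by
      rw [Complex.norm_real, Real.norm_eq_abs, abs_of_nonpos (by linarith)]
      linarith
    have hz2 : 2 ≤ ‖z + 2‖ := by
      have := re_le_norm (z + 2)
      rw [add_re, re_ofNat] at this
      linarith
    have hz3 : ‖z + 2‖ ≤ 4 * (1 + ‖(y : ℂ) * I - μ j‖) := by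
      have e : z + 2 = ((y : ℂ) * I - μ j) / 2 + 15 / 4 := by rw [hzd]; ring
      rw [e]
      refine (norm_add_le _ _).trans ?_
      rw [norm_div, Complex.norm_ofNat]
      have e2 : ‖(15 / 4 : ℂ)‖ = 15 / 4 := by
        rw [norm_div, Complex.norm_ofNat, Complex.norm_ofNat]
      rw [e2]
      have := norm_nonneg ((y : ℂ) * I - μ j)
      linarith
    have hz4 : ‖Complex.log (z + 2)‖ ≤ Real.log ‖z + 2‖ + 4 := by
      have e : Complex.log (z + 2) = ((Real.log ‖z + 2‖ : ℝ) : ℂ) + ((arg (z + 2) : ℝ) : ℂ) * I := rfl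
      rw [e]
      refine (norm_add_le _ _).trans ?_
      rw [norm_mul, Complex.norm_I, mul_one, Complex.norm_real, Complex.norm_real, Real.norm_eq_abs,
        Real.norm_eq_abs, abs_of_nonneg (Real.log_nonneg (by linarith))]
      have := Complex.abs_arg_le_pi (z + 2)
      have := Real.pi_lt_d2
      linarith
    have h6 : Real.log ‖z + 2‖ ≤ Real.log 4 + Real.log (1 + ‖(y : ℂ) * I - μ j‖) := by
      rw [← Real.log_mul (by norm_num) (hp j).ne']
      exact Real.log_le_log (by linarith) hz3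
    have h8 : Real.log 4 ≤ 3 := by
      have := Real.log_le_sub_one_of_pos (show (0:ℝ) < 4 by norm_num)
      linarith
    have h5 : ‖logDeriv Gamma z‖ ≤ 7 + ‖Complex.log (z + 2)‖ := by
      have e : logDeriv Gamma z = (logDeriv Gamma z - Complex.log (z + 2)) + Complex.log (z + 2) := by
        ring
      rw [e]
      refine (norm_add_le _ _).trans ?_
      linarith
    have h9 : 0 ≤ Real.log (1 + ‖(y : ℂ) * I - μ j‖) :=
      Real.log_nonneg (by linarith [norm_nonneg ((y : ℂ) * I - μ j)])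
    refine (norm_add_le _ _).trans ?_
    rw [norm_div, Complex.norm_ofNat]
    linarith
  refine (norm_add_le _ _).trans ?_
  have h3 := norm_sum_le_of_le Finset.univ (fun j _ => h2 j)
  have h4 : ∑ j : Fin m, (Real.log (1 + ‖(y : ℂ) * I - μ j‖) + 12) =
      ∑ j : Fin m, Real.log (1 + ‖(y : ℂ) * I - μ j‖) + 12 * m := by
    rw [Finset.sum_add_distrib, Finset.sum_const, Finset.card_univ, Fintype.card_fin, nsmul_eq_mul]
    ring
  rw [h4] at h3
  linarith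

variable {m : ℕ} {B : ℝ → ℝ} {N θ : ℝ} {μ : Fin m → ℂ} {X L : ℂ → ℂ}

theorem ld_le (h : UL m B N θ μ X L) (hθ : θ ≤ 1) (y : ℝ) :
    ‖logDeriv X (7 / 2 + (y : ℂ) * I)‖ ≤
      (B 1 + 12) * (m + Real.log (W355.UN.cond N μ y)) := by
  have hsre : (7 / 2 + (y : ℂ) * I).re = 7 / 2 := by
    rw [show (7 / 2 + (y : ℂ) * I) = ((7 / 2 : ℝ) : ℂ) + (y : ℂ) * I by push_cast; ring]
    simp
  have hB := h.hB 1
  rw [h.logD (by rw [hsre]; linarith)]
  have h1 := gaD_le h.hN h.re_le y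
  have h2 := h.bd 1 one_pos le_rfl (7 / 2 + (y : ℂ) * I) (by rw [hsre]; linarith)
  have h3 : 0 ≤ Real.log (W355.UN.cond N μ y) := Real.log_nonneg (one_le_cond h.hN _ y)
  have hm0 : (0 : ℝ) ≤ m := Nat.cast_nonneg m
  refine (norm_add_le _ _).trans ?_
  nlinarith [mul_nonneg hB h3, mul_nonneg hB hm0]

lemma iter_aff {X : ℂ → ℂ} (hX : Differentiable ℂ X) (v c : ℂ) (n : ℕ) :
    iteratedDeriv n (fun z : ℂ => v * X (c + 3 * z)) =
      fun z => v * 3 ^ n * iteratedDeriv n X (c + 3 * z) := by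
  induction n with
  | zero => funext z; simp
  | succ n ih =>
    rw [iteratedDeriv_succ, ih]
    funext z
    have hd : Differentiable ℂ (iteratedDeriv n X) :=
      (hX.contDiff (n := ⊤)).differentiable_iteratedDeriv n (by exact_mod_cast WithTop.coe_lt_top _)
    have h1 : HasDerivAt (fun z : ℂ => c + 3 * z) 3 z := by
      simpa using ((hasDerivAt_id z).const_mul (3 : ℂ)).const_add c
    have h2 := (HasDerivAt.comp z (hd (c + 3 * z)).hasDerivAt h1).const_mul (v * 3 ^ n)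
    have h3 : deriv (fun z => v * 3 ^ n * iteratedDeriv n X (c + 3 * z)) z =
        v * 3 ^ n * (deriv (iteratedDeriv n X) (c + 3 * z) * 3) := h2.deriv
    rw [h3, iteratedDeriv_succ]
    ring

/-- the function `F` -/
noncomputable def FF (v : ℂ) (X : ℂ → ℂ) (z : ℂ) : ℂ := v * X (1 / 2 + 3 * z)

theorem FF_symm {ε : ℂ} (hfe : ∀ s : ℂ, X s = ε * conj (X (1 - conj s))) {v : ℂ}
    (hv : v * ε = conj v) (z : ℂ) : FF v X (-(conj z)) = conj (FF v X z) := by
  unfold FF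
  rw [hfe (1 / 2 + 3 * -(conj z)), map_mul, ← hv]
  have e : 1 - conj (1 / 2 + 3 * -(conj z)) = 1 / 2 + 3 * z := by
    simp only [map_add, map_div₀, map_one, map_ofNat, map_mul, map_neg, Complex.conj_conj]
    ring
  rw [e]
  ring

theorem FF_ne (h : UL m B N θ μ X L) (hθ : θ ≤ 1) {v : ℂ} (hv : v ≠ 0) {z : ℂ} (hz : 1 / 2 < z.re) :
    FF v X z ≠ 0 := by
  unfold FF
  refine mul_ne_zero hv (h.Xne ?_)
  have e : (1 / 2 + 3 * z).re = 1 / 2 + 3 * z.re := by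
    rw [show (1 / 2 + 3 * z) = ((1 / 2 : ℝ) : ℂ) + ((3 : ℝ) : ℂ) * z by push_cast; ring]
    rw [add_re, ofReal_re, re_ofReal_mul]
  rw [e]
  linarith

theorem FF_diff (h : UL m B N θ μ X L) (v : ℂ) : Differentiable ℂ (FF v X) := by
  unfold FF
  exact (h.slow.1.comp (by fun_prop : Differentiable ℂ fun z : ℂ => (1 / 2 + 3 * z : ℂ))).const_mul v

theorem FF_app (h : UL m B N θ μ X L) (hθ : θ ≤ 1) {ε : ℂ} (hfe : ∀ s : ℂ, X s = ε * conj (X (1 - conj s)))
    {v : ℂ} (hv0 : v ≠ 0) (hv : v * ε = conj v) :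
    ∃ Q : ℕ → ℂ[X], (∀ N (z : ℂ), (Q N).IsRoot z → |z.re| ≤ 1 / 2) ∧
      TendstoLocallyUniformly (fun (N : ℕ) (z : ℂ) => (Q N).eval z) (FF v X) atTop := by
  refine had_slow (FF_diff h v) (FF_symm hfe hv) ⟨1, FF_ne h hθ hv0 (by norm_num)⟩ ?_ ?_
  · intro δ hδ
    obtain ⟨K, hK, H⟩ := (slow_affine h.slow (1 / 2) (S := 3) (by norm_num)).2 δ hδ
    refine ⟨(‖v‖ + 1) * K, by positivity, fun w => ?_⟩
    have h1 := H w
    have e : (((3 : ℝ)) : ℂ) = 3 := by norm_num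
    rw [e] at h1
    unfold FF
    rw [norm_mul, mul_assoc]
    have h2 : 0 ≤ K * Real.exp (δ * ‖w‖ ^ 2) := by positivity
    nlinarith [norm_nonneg v, norm_nonneg (X (1 / 2 + 3 * w))]
  · intro s hs
    by_contra hcon
    rw [not_le] at hcon
    rcases lt_abs.1 hcon with h1 | h1
    · exact FF_ne h hθ hv0 h1 hs
    · refine FF_ne h hθ hv0 (z := -(conj s)) (by rw [neg_re, conj_re]; exact h1) ?_
      rw [FF_symm hfe hv, hs, map_zero]

theorem FF_qq (h : UL m B N θ μ X L) (hθ : θ ≤ 1) {v : ℂ} (hv : v ≠ 0) (T : ℝ) :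
    ‖qq (FF v X) 0 (⟨1, T⟩ : ℂ)‖ ≤
      3 * ((B 1 + 12) * (m + Real.log (W355.UN.cond N μ (3 * T)))) := by
  have h1 : qq (FF v X) 0 (⟨1, T⟩ : ℂ) = 3 * logDeriv X (7 / 2 + ((3 * T : ℝ) : ℂ) * I) := by
    unfold qq
    have e1 := iter_aff h.slow.1 v (1 / 2) 1
    have e0 := iter_aff h.slow.1 v (1 / 2) 0
    have f1 : iteratedDeriv (0 + 1) (FF v X) = fun z => v * 3 ^ 1 * iteratedDeriv 1 X (1 / 2 + 3 * z) := e1
    have f0 : iteratedDeriv 0 (FF v X) = fun z => v * 3 ^ 0 * iteratedDeriv 0 X (1 / 2 + 3 * z) := e0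
    rw [f1, f0]
    simp only [iteratedDeriv_one, iteratedDeriv_zero, pow_one, pow_zero, mul_one]
    have e : (1 / 2 + 3 * (⟨1, T⟩ : ℂ)) = 7 / 2 + ((3 * T : ℝ) : ℂ) * I := by
      apply Complex.ext
      · simp; norm_num
      · simp
    rw [e, logDeriv_apply]
    have hX0 : X (7 / 2 + ((3 * T : ℝ) : ℂ) * I) ≠ 0 := by
      refine h.Xne ?_
      rw [show (7 / 2 + ((3 * T : ℝ) : ℂ) * I) = ((7 / 2 : ℝ) : ℂ) + ((3 * T : ℝ) : ℂ) * I by
        push_cast; ring]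
      rw [add_re, ofReal_re, re_ofReal_mul, I_re]
      linarith
    field_simp
  rw [h1, norm_mul, Complex.norm_ofNat]
  have h2 := ld_le h hθ (3 * T)
  linarith

end Pool.Agent.Zk1.FH
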