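import Pool.Agent.Zk1.FH.Coh2
import Pool.Agent.Zk1.FH.Inp1
import Pool.Agent.TH839.UH.HWF
import Pool.Agent.Zk6.G.Ne

set_option autoImplicit false

/-!
# The completed Hasse-Weil L-functions, scaled, are in the class `FE`
-/

open Complex Filter Topology Set Polynomial
open scoped ComplexConjugate

namespace Pool.Agent.Zk1.FH

open Pool.Agent.TH839.UH Pool.Agent.W169.HF Pool.Agent.W355.UN Pool.Agent.Zk4.G

variable {m : ℕ} {B : ℝ → ℝ} {N θ : ℝ} {μ : Fin m → ℂ} {X L : ℂ → ℂ}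

/-- generic form -/
theorem FF_FE (h : UL m B N θ μ X L) (hθ : θ ≤ 1) {ε : ℂ}
    (hfe : ∀ s : ℂ, X s = ε * conj (X (1 - conj s))) (hr : ∀ s : ℂ, conj (X (conj s)) = X s)
    {C : ℝ} {cn : ℝ → ℝ} (hres : ResD C m N cn X) {v : ℂ} (hv0 : v ≠ 0) (hv : v * ε = conj v) :
    FE (FF v X) := by
  refine ⟨FF_diff h v, FF_symm hfe hv, FF_app h hθ hfe hv0 hv, ?_⟩
  have hvc : conj v ≠ 0 := (_root_.map_ne_zero (starRingEnd ℂ)).2 hv0
  refine Pool.Agent.Zk6.G.ne_of_line (FF_diff h v) (FF_symm hfe hv) ⟨v / conj v, ?_, fun z => ?_⟩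
    fun n => ?_
  · rw [norm_div, Complex.norm_conj, div_self (norm_ne_zero_iff.2 hv0)]
  · unfold FF
    have e : X (1 / 2 + 3 * conj z) = conj (X (1 / 2 + 3 * z)) := by
      rw [← hr (1 / 2 + 3 * conj z)]
      congr 2
      simp only [map_add, map_div₀, map_one, map_ofNat, map_mul, Complex.conj_conj]
    rw [e, map_mul]
    field_simp
  · obtain ⟨M, hM⟩ := exists_nat_ge (C * (m + Real.log (cn 0)))
    refine ⟨max n M, le_max_left _ _, fun z hz h0 => ?_⟩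
    have e1 := iter_aff h.slow.1 v (1 / 2) (max n M)
    have e2 := iter_aff h.slow.1 v (1 / 2) (max n M + 1)
    have f1 : iteratedDeriv (max n M) (FF v X) = fun z => v * 3 ^ (max n M) *
      iteratedDeriv (max n M) X (1 / 2 + 3 * z) := e1
    have f2 : iteratedDeriv (max n M + 1) (FF v X) = fun z => v * 3 ^ (max n M + 1) *
      iteratedDeriv (max n M + 1) X (1 / 2 + 3 * z) := e2
    rw [f1] at h0
    rw [f2]
    have h3 : (v * 3 ^ (max n M) : ℂ) ≠ 0 := mul_ne_zero hv0 (pow_ne_zero _ (by norm_num))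
    have h4 : iteratedDeriv (max n M) X (1 / 2 + 3 * z) = 0 := (mul_eq_zero.1 h0).resolve_left h3
    have him : (1 / 2 + 3 * z).im = 0 := by
      rw [show (1 / 2 + 3 * z) = ((1 / 2 : ℝ) : ℂ) + ((3 : ℝ) : ℂ) * z by push_cast; ring]
      rw [add_im, ofReal_im, im_ofReal_mul, hz]
      simp
    have h5 := hres.loc (max n M) 0 (1 / 2 + 3 * z) le_rfl (by
      rw [him, zero_mul, add_zero]
      refine hM.trans ?_
      exact_mod_cast le_max_right n M) (by rw [heat_zero_time X h.slow]; exact h4)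
    rw [heat_zero_time X h.slow] at h5
    exact mul_ne_zero (mul_ne_zero hv0 (pow_ne_zero _ (by norm_num))) h5.2

/-- **The input**: one constant for all Hasse-Weil L-functions -/
theorem coh_fe : ∃ C : ℝ, 0 < C ∧ ∀ {i : ℕ} {h : ℕ → ℕ} {a b : ℕ} {P : ℕ → ℤ[X]}
    (_ : 1 ≤ 2 * ∑ p ∈ Finset.range ((i + 1) / 2), h p + (if Even i then a + b else 0))
    (_ : ∀ p, p.Prime → (P p).coeff 0 = 1)
    (_ : ∀ p, p.Prime → (P p).natDegree ≤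
      2 * ∑ p ∈ Finset.range ((i + 1) / 2), h p + (if Even i then a + b else 0))
    (_ : ∀ p : ℕ, p.Prime → ∀ z : ℂ, aeval z (P p) = 0 → (p : ℝ) ^ (-(((i : ℝ) + 1) / 2)) ≤ ‖z‖)
    {A : ℝ} {r : ℕ} {Λ : ℂ → ℂ} (_ : 1 ≤ A)
    (_ : r ≤ 2 * ∑ p ∈ Finset.range ((i + 1) / 2), h p + (if Even i then a + b else 0))
    (_ : Differentiable ℂ Λ)
    (_ : ∃ A ρ : ℝ, ∀ s : ℂ, ‖Λ s‖ ≤ Real.exp (A * (1 + ‖s‖) ^ ρ))
    (_ : ∃ ε : ℝ, (ε = 1 ∨ ε = -1) ∧ ∀ s : ℂ, Λ s = ε * Λ (i + 1 - s))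
    (_ : ∃ σ : ℝ, ∀ s : ℂ, σ ≤ s.re → Λ s = ((s - (i : ℂ) / 2) * (s - (i : ℂ) / 2 - 1)) ^ r *
      ((A : ℂ) ^ (s / 2) * ((∏ p ∈ Finset.range ((i + 1) / 2), Gammaℂ (s - p) ^ h p) *
        (if Even i then Gammaℝ (s - (i : ℂ) / 2) ^ a * Gammaℝ (s - (i : ℂ) / 2 + 1) ^ b else 1)) *
        ∏' p : Nat.Primes, (aeval (((p : ℕ) : ℂ) ^ (-s)) (P p))⁻¹)),
    ∃ u : ℂ, u ≠ 0 ∧ FE (fun z => u * Λ (((i : ℂ) + 1) / 2 + 3 * z)) ∧
      (∀ T : ℝ, ‖qq (fun z => u * Λ (((i : ℂ) + 1) / 2 + 3 * z)) 0 (⟨1, T⟩ : ℂ)‖ ≤ C *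
        (((2 * ∑ p ∈ Finset.range ((i + 1) / 2), h p + (if Even i then a + b else 0) : ℕ) : ℝ) +
          Real.log (A * ((∏ p ∈ Finset.range ((i + 1) / 2),
            ((1 + ‖((3 * T : ℝ) : ℂ) * I + ((i : ℂ) / 2 - p)‖) *
            (1 + ‖((3 * T : ℝ) : ℂ) * I + ((i : ℂ) / 2 - p + 1)‖)) ^ h p) *
          (if Even i then (1 + ‖((3 * T : ℝ) : ℂ) * I + 0‖) ^ a * (1 + ‖((3 * T : ℝ) : ℂ) * I + 1‖) ^ b
            else 1))))) ∧
      (∀ s : ℂ, conj (Λ (conj s)) = Λ s) ∧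
      (∀ (n : ℕ) (z : ℂ), iteratedDeriv n (fun z => u * Λ (((i : ℂ) + 1) / 2 + 3 * z)) z =
        u * 3 ^ n * iteratedDeriv n Λ (((i : ℂ) + 1) / 2 + 3 * z)) := by
  obtain ⟨C0, -, -, H⟩ := finH
  have hB0 := Pool.Agent.TH839.UH.NF.B0_nonneg
  refine ⟨3 * (4 * Pool.Agent.TH839.UH.NF.B0 + 2 + 12), by positivity, ?_⟩
  intro i h a b P hpos hP0 hPd hPr A r Λ hA hr hent hord hfe heq
  obtain ⟨hreal, l, α, κ, hκ, hlen, hW, hcond, -⟩ := coh_hw hpos hP0 hPd hPr hA hr hent hord hfe heq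
  obtain ⟨ε, hε, hfe⟩ := hfe
  obtain ⟨u, hu0, hu⟩ : ∃ u : ℂ, u ≠ 0 ∧ u * ((ε : ℝ) : ℂ) = conj u := by
    rcases hε with rfl | rfl
    · exact ⟨1, one_ne_zero, by simp⟩
    · exact ⟨I, I_ne_zero, by simp⟩
  have hκc : (κ : ℂ) ≠ 0 := by exact_mod_cast hκ.ne'
  have hul := hW.ul
  have hXfe : ∀ s : ℂ, (κ : ℂ) * Λ (s + (((i : ℝ) / 2 : ℝ) : ℂ)) =
      ((ε : ℝ) : ℂ) * conj ((κ : ℂ) * Λ (1 - conj s + (((i : ℝ) / 2 : ℝ) : ℂ))) := by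
    intro s
    rw [map_mul, Complex.conj_ofReal]
    have e : conj (Λ (1 - conj s + (((i : ℝ) / 2 : ℝ) : ℂ))) =
        Λ (i + 1 - (s + (((i : ℝ) / 2 : ℝ) : ℂ))) := by
      rw [← hreal (i + 1 - (s + (((i : ℝ) / 2 : ℝ) : ℂ)))]
      congr 2
      simp only [map_sub, map_add, Complex.conj_natCast, Complex.conj_ofReal, map_one]
      push_cast
      ring
    rw [e, hfe (s + (((i : ℝ) / 2 : ℝ) : ℂ))]
    ring
  have hXr : ∀ s : ℂ, conj ((κ : ℂ) * Λ (conj s + (((i : ℝ) / 2 : ℝ) : ℂ))) =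
      (κ : ℂ) * Λ (s + (((i : ℝ) / 2 : ℝ) : ℂ)) := by
    intro s
    rw [map_mul, Complex.conj_ofReal, ← hreal (s + (((i : ℝ) / 2 : ℝ) : ℂ))]
    congr 3
    simp only [map_add, Complex.conj_ofReal]
  have hv0 : u / κ ≠ 0 := div_ne_zero hu0 hκc
  have hv : u / κ * ((ε : ℝ) : ℂ) = conj (u / κ) := by
    rw [map_div₀, Complex.conj_ofReal, ← hu]
    ring
  have hFF : FF (u / κ) (fun z => (κ : ℂ) * Λ (z + (((i : ℝ) / 2 : ℝ) : ℂ))) =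
      fun z => u * Λ (((i : ℂ) + 1) / 2 + 3 * z) := by
    funext z
    unfold FF
    have e : (1 / 2 + 3 * z + (((i : ℝ) / 2 : ℝ) : ℂ)) = ((i : ℂ) + 1) / 2 + 3 * z := by
      push_cast
      ring
    show u / κ * ((κ : ℂ) * Λ (1 / 2 + 3 * z + (((i : ℝ) / 2 : ℝ) : ℂ))) = _
    rw [e]
    field_simp
  refine ⟨u, hu0, ?_, fun T => ?_, hreal, fun n z => ?_⟩
  · rw [← hFF]
    exact FF_FE hul le_rfl hXfe hXr (H _ _ _ _ _ _ hW) hv0 hv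
  · rw [← hFF]
    have h1 := FF_qq hul le_rfl hv0 T
    have h2 := congrFun hcond (3 * T)
    refine h1.trans (le_of_eq ?_)
    have h3 : W355.UN.cond A (fun j => -l.get j) (3 * T) = _ := h2
    rw [h3, hlen]
    ring
  · rw [iter_aff hent u (((i : ℂ) + 1) / 2) n]

end Pool.Agent.Zk1.FH
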